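import Pool.Agent.Helper71.UN.StD

/-!
# Project UN, module STP: the smooth steps
-/

set_option autoImplicit false

open Set Filter Topology
open scoped ContDiff

noncomputable section

namespace Pool.Agent.Helper73.UN

open Pool.Agent.Helper71.UN

private theorem sym_stp (x : ℝ) : stp (1 - x) = 1 - stp x := by
  have h : 0 < expNegInvGlue x + expNegInvGlue (1 - x) := Real.smoothTransition.pos_denom x
  have h2 : 1 - (1 - x) = x := by ring
  unfold stp Real.smoothTransition
  rw [h2, add_comm (expNegInvGlue (1 - x)) (expNegInvGlue x), eq_sub_iff_add_eq, ← add_div,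
    add_comm (expNegInvGlue (1 - x)) (expNegInvGlue x), div_self h.ne']

/-- Module STP. -/
theorem hSTP : StSTP := by
  have h1 : ContDiff ℝ ∞ stp := Real.smoothTransition.contDiff
  have h2 : ∀ t, 0 ≤ stp t ∧ stp t ≤ 1 := fun t =>
    ⟨Real.smoothTransition.nonneg _, Real.smoothTransition.le_one _⟩
  have h3 : ∀ t, t ≤ 0 → stp t = 0 := fun t ht => Real.smoothTransition.zero_of_nonpos ht
  have h4 : ∀ t, 1 ≤ t → stp t = 1 := fun t ht => Real.smoothTransition.one_of_one_le ht
  have h5 := sym_stp
  have s1 : ContDiff ℝ ∞ sg := by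
    unfold sg
    exact h1.comp ((contDiff_id.add contDiff_const).div_const _)
  have s2 : ∀ h, 0 ≤ sg h ∧ sg h ≤ 1 := fun h => h2 _
  have s3 : ∀ h, h ≤ -1 → sg h = 0 := fun h hh => h3 _ (by linarith)
  have s4 : ∀ h, 1 ≤ h → sg h = 1 := fun h hh => h4 _ (by linarith)
  have s5 : ∀ h, sg (-h) = 1 - sg h := by
    intro h
    unfold sg
    rw [← h5]
    congr 1
    ring
  refine ⟨h1, h2, h3, h4, h5, s1, s2, s3, s4, s5, ?_, ?_, ?_, ?_⟩
  · unfold prof
    exact h1.comp s1
  · intro h hh
    unfold prof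
    rw [s3 h hh]
    exact h3 _ le_rfl
  · intro h hh
    unfold prof
    rw [s4 h hh]
    exact h4 _ le_rfl
  · intro h
    unfold prof
    rw [s5, h5]

end Pool.Agent.Helper73.UN
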